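import Pool.Agent.Helper40.JZ.Stmts

/-!
ANZ: the theorem for the skew product (MP_7a8f48_an).
-/

open Finset Filter MeasureTheory Topology

namespace Pool.Agent.Helper40.JZ

open Pool.Agent.Helper16.AZ (T E Op mm fc Ind)
open Pool.Agent.Helper16.BZ (co Wk EE ff EQ)
open Pool.Agent.Helper40.DZ (RI UR SK Good3)

theorem st_ANZ (hMPA : ST_MPA) (hEQA : ST_EQA) (hSTR : ST_STR4) (hTHB : ST_THB4) : ST_ANZ := by
  intro r θ f hθ hf hN
  obtain ⟨hm, S, hS⟩ := hMPA r θ f hf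
  have h1 : (S : T (r + 1) → T (r + 1)) = SA θ f := funext hS
  have h2 := hTHB (r + 1) S (by rw [h1]; exact hSTR r θ f hθ hf hN) (by rw [h1]; exact hm)
    (by rw [h1]; exact hEQA r θ f hθ hf hN)
  rwa [h1] at h2

end Pool.Agent.Helper40.JZ
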